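import Pool.Agent.MP_1246c0_nt.H12.SpecN

/-! Amplification for bilinear sums of characters. -/

namespace Pool.Agent.MP_1246c0_nt.H12

open Finset

namespace AMP

theorem cube {β G : Type} [DecidableEq β] [Fintype G] [DecidableEq G] (N : ℕ) (I : Finset β)
    (φ : β → G) (t : ℕ) (ht : ∀ c, t ≤ (I.filter fun n => φ n = c).card)
    (H : (Fin N → G) → ℝ) (h1 : ∀ b, |H b| ≤ 1) (h0 : ∑ b, H b = 0) :
    |∑ a ∈ Fintype.piFinset fun _ : Fin N => I, H fun j => φ (a j)| ≤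
      (I.card : ℝ) ^ N - ((Fintype.card G : ℝ) * t) ^ N := by
  have key : ∀ K : (Fin N → G) → ℝ,
      ∑ a ∈ Fintype.piFinset fun _ : Fin N => I, K (fun j => φ (a j)) =
      ∑ b, (∏ j, ((I.filter fun n => φ n = b j).card : ℝ)) * K b := by
    intro K
    rw [← Finset.sum_fiberwise (Fintype.piFinset fun _ : Fin N => I) (fun a j => φ (a j))]
    refine Finset.sum_congr rfl fun b _ => ?_
    have e1 : ((Fintype.piFinset fun _ : Fin N => I).filter fun a => (fun j => φ (a j)) = b) =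
        Fintype.piFinset fun j => I.filter fun n => φ n = b j := by
      ext a
      simp only [mem_filter, Fintype.mem_piFinset, funext_iff, forall_and]
    rw [Finset.sum_congr rfl (g := fun _ => K b)
      (fun a ha => by rw [(Finset.mem_filter.mp ha).2]), Finset.sum_const, e1,
      Fintype.card_piFinset, nsmul_eq_mul, Nat.cast_prod]
  have k1 := key fun _ => 1
  simp only [Finset.sum_const, Fintype.card_piFinset, Finset.prod_const, Finset.card_univ,
    Fintype.card_fin, nsmul_eq_mul, mul_one, Nat.cast_pow] at k1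
  have lo : ∀ b : Fin N → G, (t : ℝ) ^ N ≤ ∏ j, ((I.filter fun n => φ n = b j).card : ℝ) := by
    intro b
    have : (t : ℝ) ^ N = ∏ _j : Fin N, (t : ℝ) := by simp
    rw [this]
    exact Finset.prod_le_prod (fun _ _ => Nat.cast_nonneg _) fun j _ => by exact_mod_cast ht (b j)
  have e2 : ∑ b : Fin N → G, (∏ j, ((I.filter fun n => φ n = b j).card : ℝ)) * H b =
      ∑ b : Fin N → G, ((∏ j, ((I.filter fun n => φ n = b j).card : ℝ)) - (t : ℝ) ^ N) * H b := by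
    simp only [sub_mul, Finset.sum_sub_distrib, ← Finset.mul_sum, h0, mul_zero, sub_zero]
  rw [key, e2]
  refine (Finset.abs_sum_le_sum_abs _ _).trans ?_
  have e3 : (I.card : ℝ) ^ N - ((Fintype.card G : ℝ) * t) ^ N =
      ∑ b : Fin N → G, ((∏ j, ((I.filter fun n => φ n = b j).card : ℝ)) - (t : ℝ) ^ N) := by
    rw [Finset.sum_sub_distrib, ← k1, Finset.sum_const, Finset.card_univ, Fintype.card_fun,
      Fintype.card_fin, nsmul_eq_mul, Nat.cast_pow, mul_pow]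
  rw [e3]
  refine Finset.sum_le_sum fun b _ => ?_
  have hb := sub_nonneg.mpr (lo b)
  rw [abs_mul, abs_of_nonneg hb]
  exact mul_le_of_le_one_right hb (h1 b)

/-- the residue of an integer -/
def fm (p : ℕ) (hp : 0 < p) (n : ℤ) : Fin p :=
  ⟨(n % p).toNat, by
    have h1 : 0 ≤ n % (p : ℤ) := Int.emod_nonneg _ (by exact_mod_cast hp.ne')
    have h2 : n % (p : ℤ) < p := Int.emod_lt_of_pos _ (by exact_mod_cast hp)
    omega⟩

theorem fm_val (p : ℕ) (hp : 0 < p) (n : ℤ) : ((fm p hp n : ℕ) : ℤ) = n % p :=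
  Int.toNat_of_nonneg (Int.emod_nonneg _ (by exact_mod_cast hp.ne'))

theorem fm_eq (p : ℕ) (hp : 0 < p) (n : ℤ) (c : Fin p) (h : n ≡ ((c : ℕ) : ℤ) [ZMOD p]) :
    fm p hp n = c := by
  apply Fin.ext
  have h1 := fm_val p hp n
  have h2 : ((c : ℕ) : ℤ) % p = (c : ℕ) :=
    Int.emod_eq_of_lt (Int.natCast_nonneg _) (by exact_mod_cast c.2)
  have h3 : n % p = ((c : ℕ) : ℤ) % p := h
  omega

theorem fib (p q : ℕ) (hp : 0 < p) (hq : 0 < q) (co : p.Coprime q) (s : ℤ) (W : ℕ)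
    (c : Fin p × Fin q) :
    W / (p * q) ≤ ((Finset.Ico s (s + W)).filter fun n => (fm p hp n, fm q hq n) = c).card := by
  obtain ⟨n0, h1, h2⟩ := Nat.chineseRemainder co c.1 c.2
  have hQ : (0 : ℤ) < (p : ℤ) * q := by positivity
  have r0 : 0 ≤ ((n0 : ℤ) - s) % ((p : ℤ) * q) := Int.emod_nonneg _ hQ.ne'
  have r1 : ((n0 : ℤ) - s) % ((p : ℤ) * q) < (p : ℤ) * q := Int.emod_lt_of_pos _ hQ
  have hW : ((p : ℤ) * q) * ((W / (p * q) : ℕ) : ℤ) ≤ W := by
    exact_mod_cast Nat.mul_div_le W (p * q)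
  conv_lhs => rw [← Finset.card_range (W / (p * q))]
  refine Finset.card_le_card_of_injOn
    (fun i : ℕ => s + ((n0 : ℤ) - s) % ((p : ℤ) * q) + ((p : ℤ) * q) * i) ?_ ?_
  · intro i hi
    have hi' : (i : ℤ) + 1 ≤ ((W / (p * q) : ℕ) : ℤ) := by
      exact_mod_cast Finset.mem_range.mp (Finset.mem_coe.mp hi)
    have hi0 : (0 : ℤ) ≤ ((p : ℤ) * q) * i := by positivity
    have hi1 : ((p : ℤ) * q) * (i + 1) ≤ ((p : ℤ) * q) * ((W / (p * q) : ℕ) : ℤ) :=
      mul_le_mul_of_nonneg_left hi' hQ.le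
    have cg : s + ((n0 : ℤ) - s) % ((p : ℤ) * q) + ((p : ℤ) * q) * i ≡ n0 [ZMOD (p : ℤ) * q] := by
      rw [Int.modEq_iff_dvd]
      refine ⟨((n0 : ℤ) - s) / ((p : ℤ) * q) - i, ?_⟩
      have := Int.emod_add_mul_ediv ((n0 : ℤ) - s) ((p : ℤ) * q)
      linarith
    refine Finset.mem_coe.mpr (Finset.mem_filter.mpr ⟨Finset.mem_Ico.mpr ⟨by linarith, by linarith⟩, ?_⟩)
    refine Prod.ext (fm_eq p hp _ _ ?_) (fm_eq q hq _ _ ?_)
    · exact (cg.of_mul_right _).trans (Int.natCast_modEq_iff.mpr h1)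
    · exact (cg.of_mul_left _).trans (Int.natCast_modEq_iff.mpr h2)
  · intro i _ j _ h
    have h' : ((p : ℤ) * q) * i = ((p : ℤ) * q) * j := by
      have h'' : s + ((n0 : ℤ) - s) % ((p : ℤ) * q) + ((p : ℤ) * q) * i =
        s + ((n0 : ℤ) - s) % ((p : ℤ) * q) + ((p : ℤ) * q) * j := h
      linarith
    exact_mod_cast mul_left_cancel₀ hQ.ne' h'

theorem red {R : Type} [CommRing R] {N : ℕ} {e : Fin N → R} {χ : R → ℝ} {p : ℕ} (hp : 0 < p)
    (h : Chr e χ p) (a : Fin N → ℤ) :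
    χ (∑ j, a j • e j) = χ (∑ j, ((fm p hp (a j) : ℕ) : ℤ) • e j) := by
  rw [← h.per (∑ j, ((fm p hp (a j) : ℕ) : ℤ) • e j) (∑ j, (a j / p) • e j), Finset.mul_sum,
    ← Finset.sum_add_distrib]
  congr 1
  refine Finset.sum_congr rfl fun j _ => ?_
  rw [fm_val]
  conv_lhs => rw [← Int.emod_add_mul_ediv (a j) p]
  rw [add_smul, mul_smul]
  simp only [zsmul_eq_mul, Int.cast_natCast]

theorem pair {R : Type} [CommRing R] {N : ℕ} {e : Fin N → R} {χ ψ : R → ℝ} {p q : ℕ}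
    (hp : 0 < p) (hq : 0 < q) (co : p.Coprime q) (h : Chr e χ p) (h' : Chr e ψ q) (s : ℤ) (W : ℕ) :
    |∑ a ∈ Fintype.piFinset fun _ : Fin N => Finset.Ico s (s + W),
      χ (∑ j, a j • e j) * ψ (∑ j, a j • e j)| * W ≤ (p * q : ℝ) * N * (W : ℝ) ^ N := by
  have c := cube N (Finset.Ico s (s + W)) (fun n => (fm p hp n, fm q hq n)) (W / (p * q))
    (fib p q hp hq co s W)
    (fun b => χ (∑ j, (((b j).1 : ℕ) : ℤ) • e j) * ψ (∑ j, (((b j).2 : ℕ) : ℤ) • e j))
    (fun b => by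
      rw [abs_mul]
      exact mul_le_one₀ (h.abs _) (abs_nonneg _) (h'.abs _))
    (by
      rw [← (Equiv.arrowProdEquivProdArrow (Fin N) (fun _ => Fin p) fun _ => Fin q).symm.sum_comp,
        Fintype.sum_prod_type]
      have := Fintype.sum_mul_sum (fun a : Fin N → Fin p => χ (∑ j, ((a j : ℕ) : ℤ) • e j))
        fun a : Fin N → Fin q => ψ (∑ j, ((a j : ℕ) : ℤ) • e j)
      rw [h.zero, zero_mul] at this
      exact this.symm)
  have e1 : ∑ a ∈ Fintype.piFinset fun _ : Fin N => Finset.Ico s (s + W),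
      χ (∑ j, a j • e j) * ψ (∑ j, a j • e j) =
      ∑ a ∈ Fintype.piFinset fun _ : Fin N => Finset.Ico s (s + W),
      χ (∑ j, ((fm p hp (a j) : ℕ) : ℤ) • e j) * ψ (∑ j, ((fm q hq (a j) : ℕ) : ℤ) • e j) :=
    Finset.sum_congr rfl fun a _ => by rw [← red hp h, ← red hq h']
  rw [e1]
  have cI : (Finset.Ico s (s + W)).card = W := by simp
  rw [cI, Fintype.card_prod, Fintype.card_fin, Fintype.card_fin] at c
  have hQ : 0 < p * q := Nat.mul_pos hp hq
  have l1 : p * q * (W / (p * q)) ≤ W := Nat.mul_div_le W (p * q)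
  have l2 : W ≤ p * q * (W / (p * q)) + p * q := by
    have := Nat.div_add_mod W (p * q)
    have := Nat.mod_lt W hQ
    omega
  have l1' : ((p * q : ℕ) : ℝ) * ((W / (p * q) : ℕ) : ℝ) ≤ W := by exact_mod_cast l1
  have l2' : (W : ℝ) ≤ ((p * q : ℕ) : ℝ) * ((W / (p * q) : ℕ) : ℝ) + p * q := by exact_mod_cast l2
  have y0 : (0 : ℝ) ≤ ((p * q : ℕ) : ℝ) * ((W / (p * q) : ℕ) : ℝ) := by positivity
  generalize ((p * q : ℕ) : ℝ) * ((W / (p * q) : ℕ) : ℝ) = y at c l1' l2' y0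
  have W0 : (0 : ℝ) ≤ W := Nat.cast_nonneg _
  have b1 := abs_pow_sub_pow_le (W : ℝ) y N
  rw [abs_of_nonneg W0, abs_of_nonneg y0, max_eq_left l1', abs_of_nonneg (sub_nonneg.mpr l1')] at b1
  have b2 : (N : ℝ) * (W : ℝ) ^ (N - 1) * W = N * (W : ℝ) ^ N := by
    rcases N with _ | N
    · simp
    · rw [Nat.add_sub_cancel, mul_assoc, ← pow_succ]
  have b3 : ((W : ℝ) - y) * N * (W : ℝ) ^ (N - 1) ≤ (p * q : ℝ) * N * (W : ℝ) ^ (N - 1) :=
    mul_le_mul_of_nonneg_right (mul_le_mul_of_nonneg_right (by linarith) (Nat.cast_nonneg _))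
      (by positivity)
  have b4 := mul_le_mul_of_nonneg_right (c.trans ((le_abs_self _).trans (b1.trans b3))) W0
  refine b4.trans (le_of_eq ?_)
  rw [mul_assoc (p * q : ℝ), mul_assoc (p * q : ℝ), b2, mul_assoc (p * q : ℝ)]

theorem card_le {A' : Finset ℕ} {M' : ℕ} (h : ∀ p ∈ A', p.Prime ∧ p ≤ M') : A'.card ≤ M' := by
  have : A' ⊆ Finset.Icc 1 M' := fun p hp => Finset.mem_Icc.mpr ⟨(h p hp).1.one_le, (h p hp).2⟩
  simpa using Finset.card_le_card this

/-- the mean square over a cube -/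
theorem msq {R : Type} [CommRing R] {N : ℕ} {e : Fin N → R} {χ : ℕ → R → ℝ} {A' : Finset ℕ}
    {M' W : ℕ} (h : ∀ p ∈ A', p.Prime ∧ p ≤ M' ∧ Chr e (χ p) p) (hW : M' ^ 3 ≤ W) (hW0 : 0 < W)
    (v : ℕ → ℝ) (hv : ∀ p, |v p| ≤ 1) (s : ℤ) :
    ∑ a ∈ Fintype.piFinset fun _ : Fin N => Finset.Ico s (s + W),
      (∑ p ∈ A', v p * χ p (∑ j, a j • e j)) ^ 2 ≤ M' * (N + 1) * (W : ℝ) ^ N := by
  have cA : (A'.card : ℝ) ≤ M' := by
    exact_mod_cast card_le fun p hp => ⟨(h p hp).1, (h p hp).2.1⟩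
  have W0 : (0 : ℝ) < W := by exact_mod_cast hW0
  have hW' : (M' : ℝ) ^ 3 ≤ W := by exact_mod_cast hW
  have M0 : (0 : ℝ) ≤ M' := Nat.cast_nonneg _
  have e1 : ∑ a ∈ Fintype.piFinset fun _ : Fin N => Finset.Ico s (s + W),
      (∑ p ∈ A', v p * χ p (∑ j, a j • e j)) ^ 2 =
      ∑ p ∈ A', ∑ q ∈ A', v p * v q * ∑ a ∈ Fintype.piFinset fun _ : Fin N => Finset.Ico s (s + W),
        χ p (∑ j, a j • e j) * χ q (∑ j, a j • e j) := by
    simp only [sq, Finset.sum_mul_sum]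
    simp only [Finset.mul_sum]
    rw [Finset.sum_comm]
    refine Finset.sum_congr rfl fun p _ => ?_
    rw [Finset.sum_comm]
    refine Finset.sum_congr rfl fun q _ => Finset.sum_congr rfl fun a _ => by ring
  have b1 : ∀ p ∈ A', ∀ q ∈ A',
      v p * v q * ∑ a ∈ Fintype.piFinset fun _ : Fin N => Finset.Ico s (s + W),
        χ p (∑ j, a j • e j) * χ q (∑ j, a j • e j) ≤
      (if p = q then (W : ℝ) ^ N else 0) + (M' : ℝ) ^ 2 * N * (W : ℝ) ^ N / W := by
    intro p hp q hq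
    have vv : |v p * v q| ≤ 1 := by
      rw [abs_mul]
      exact mul_le_one₀ (hv p) (abs_nonneg _) (hv q)
    refine (le_abs_self _).trans ?_
    rw [abs_mul]
    refine (mul_le_of_le_one_left (abs_nonneg _) vv).trans ?_
    split_ifs with hpq
    · refine le_add_of_le_of_nonneg ?_ (by positivity)
      refine (Finset.abs_sum_le_sum_abs _ _).trans ?_
      refine (Finset.sum_le_card_nsmul _ _ 1 fun a _ => ?_).trans (le_of_eq ?_)
      · rw [abs_mul]
        exact mul_le_one₀ ((h p hp).2.2.abs _) (abs_nonneg _) ((h q hq).2.2.abs _)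
      · simp
    · rw [zero_add, le_div_iff₀ W0]
      refine (pair (h p hp).1.pos (h q hq).1.pos
        ((Nat.coprime_primes (h p hp).1 (h q hq).1).mpr hpq) (h p hp).2.2 (h q hq).2.2 s W).trans ?_
      have hp' : (p : ℝ) ≤ M' := by exact_mod_cast (h p hp).2.1
      have hq' : (q : ℝ) ≤ M' := by exact_mod_cast (h q hq).2.1
      have : (p * q : ℝ) ≤ (M' : ℝ) ^ 2 := by
        rw [sq]
        exact mul_le_mul hp' hq' (Nat.cast_nonneg _) M0
      gcongr
  rw [e1]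
  refine (Finset.sum_le_sum fun p hp => Finset.sum_le_sum fun q hq => b1 p hp q hq).trans ?_
  have e2 : ∑ p ∈ A', ∑ q ∈ A', ((if p = q then (W : ℝ) ^ N else 0) +
      (M' : ℝ) ^ 2 * N * (W : ℝ) ^ N / W) =
      A'.card * ((W : ℝ) ^ N + A'.card * ((M' : ℝ) ^ 2 * N * (W : ℝ) ^ N / W)) := by
    rw [← nsmul_eq_mul, ← Finset.sum_const]
    refine Finset.sum_congr rfl fun p hp => ?_
    rw [Finset.sum_add_distrib, Finset.sum_ite_eq, if_pos hp, Finset.sum_const, nsmul_eq_mul]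
  rw [e2, mul_assoc (M' : ℝ)]
  refine mul_le_mul cA ?_ (by positivity) M0
  have b2 : (A'.card : ℝ) * ((M' : ℝ) ^ 2 * N * (W : ℝ) ^ N / W) ≤ N * (W : ℝ) ^ N := by
    refine (mul_le_mul_of_nonneg_right cA (by positivity)).trans ?_
    rw [← mul_div_assoc, div_le_iff₀ W0]
    have : (0 : ℝ) ≤ N * (W : ℝ) ^ N := by positivity
    nlinarith [mul_le_mul_of_nonneg_left hW' this]
  linarith

theorem box_prod {R : Type} [CommRing R] {N : ℕ} {e : Fin N → R} {κ L : ℕ} (hk : Kit e κ) :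
    ∀ (k : ℕ) (x : Fin k → R), (∀ i, x i ∈ Box e L) → ∏ i, x i ∈ Box e ((κ * L) ^ k)
  | 0, _, _ => by simpa using hk.one
  | k + 1, x, hx => by
    rw [Fin.prod_univ_succ]
    have := hk.mul _ _ _ _ (hx 0) (box_prod hk k (fun i => x i.succ) fun i => hx _)
    rwa [← pow_succ'] at this

theorem chr_prod {R : Type} [CommRing R] {χ : R → ℝ} (h : ∀ x y, χ (x * y) = χ x * χ y) :
    ∀ (k : ℕ) (x : Fin (k + 1) → R), ∏ i, χ (x i) = χ (∏ i, x i)
  | 0, x => by simp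
  | k + 1, x => by
    rw [Fin.prod_univ_succ, Fin.prod_univ_succ x, h, chr_prod h k fun i => x i.succ]

/-- few tuples have a given product -/
theorem fibre {R : Type} [CommRing R] [DecidableEq R] {nm : R →* ℤ} {α : ℕ → R} {A : Finset ℕ}
    (hs : Sep nm α A) (k : ℕ) (x : R) :
    ((Fintype.piFinset fun _ : Fin k => A).filter fun q => ∏ i, α (q i) = x).card ≤ k ^ k := by
  rcases ((Fintype.piFinset fun _ : Fin k => A).filter fun q => ∏ i, α (q i) = x).eq_empty_or_nonempty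
    with h | ⟨q0, h0⟩
  · rw [h]
    exact Nat.zero_le _
  obtain ⟨h0A, h0x⟩ := Finset.mem_filter.mp h0
  have sub : ((Fintype.piFinset fun _ : Fin k => A).filter fun q => ∏ i, α (q i) = x) ⊆
      Fintype.piFinset fun _ : Fin k => Finset.univ.image q0 := by
    intro q hq
    obtain ⟨hA, hx⟩ := Finset.mem_filter.mp hq
    refine Fintype.mem_piFinset.mpr fun i => ?_
    have hi := Fintype.mem_piFinset.mp hA i
    have d1 : (q i : ℤ) ∣ ∏ j, nm (α (q0 j)) := by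
      rw [← map_prod, h0x, ← hx, map_prod]
      exact (hs _ hi).2.1.trans (Finset.dvd_prod_of_mem (fun j => nm (α (q j))) (Finset.mem_univ i))
    obtain ⟨j, _, hj⟩ := (Prime.dvd_finsetProd_iff (Nat.prime_iff_prime_int.mp (hs _ hi).1) _).mp d1
    exact Finset.mem_image.mpr ⟨j, Finset.mem_univ _,
      ((hs _ (Fintype.mem_piFinset.mp h0A j)).2.2 _ hi hj).symm⟩
  refine (Finset.card_le_card sub).trans ?_
  rw [Fintype.card_piFinset, Finset.prod_const, Finset.card_univ, Fintype.card_fin]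
  exact Nat.pow_le_pow_left (Finset.card_image_le.trans (by simp)) k

theorem push {β γ R : Type} [DecidableEq R] (P : Finset β) (C : Finset γ) (π : β → R) (ι : γ → R)
    (c : ℕ) (hc : ∀ x, (P.filter fun q => π q = x).card ≤ c) (hs : ∀ q ∈ P, ∃ a ∈ C, ι a = π q)
    (F : R → ℝ) (hF : ∀ x, 0 ≤ F x) : ∑ q ∈ P, F (π q) ≤ c * ∑ a ∈ C, F (ι a) := by
  rw [Finset.sum_comp F π]
  have sub : P.image π ⊆ C.image ι := by
    intro x hx
    obtain ⟨q, hq, rfl⟩ := Finset.mem_image.mp hx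
    exact Finset.mem_image.mpr (hs q hq)
  have b1 : ∑ x ∈ P.image π, F x ≤ ∑ a ∈ C, F (ι a) :=
    (Finset.sum_le_sum_of_subset_of_nonneg sub fun x _ _ => hF x).trans
      (Finset.sum_image_le_of_nonneg fun x _ => hF x)
  refine le_trans ?_ (mul_le_mul_of_nonneg_left b1 (Nat.cast_nonneg _))
  rw [Finset.mul_sum]
  refine Finset.sum_le_sum fun x _ => ?_
  rw [nsmul_eq_mul]
  exact mul_le_mul_of_nonneg_right (by exact_mod_cast hc x) (hF x)

end AMP

open AMP in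
theorem rowAMP : SAMP := by
  intro R _ N e κ nm α χ A A' u v L M' k W hk hs hα hA' hu hv k1 hW hM
  classical
  obtain ⟨k, rfl⟩ : ∃ k', k = k' + 1 := ⟨k - 1, by omega⟩
  have cA : (A'.card : ℝ) ≤ M' := by
    exact_mod_cast card_le fun p hp => ⟨(hA' p hp).1, (hA' p hp).2.1⟩
  -- the inner sums
  obtain ⟨T, hT⟩ : ∃ T : ℕ → ℝ, T = fun p' => ∑ p ∈ A, u p * χ p' (α p) := ⟨_, rfl⟩
  have s1 : |∑ p ∈ A, ∑ p' ∈ A', u p * v p' * χ p' (α p)| ≤ ∑ p' ∈ A', |T p'| := by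
    rw [Finset.sum_comm]
    refine (Finset.abs_sum_le_sum_abs _ _).trans (Finset.sum_le_sum fun p' _ => ?_)
    have : ∑ p ∈ A, u p * v p' * χ p' (α p) = v p' * T p' := by
      rw [hT, Finset.mul_sum]
      exact Finset.sum_congr rfl fun p _ => by ring
    rw [this, abs_mul]
    exact mul_le_of_le_one_left (abs_nonneg _) (hv p')
  have s2 : (∑ p' ∈ A', |T p'|) ^ (k + 1) ≤ (M' : ℝ) ^ k * ∑ p' ∈ A', |T p'| ^ (k + 1) :=
    (pow_sum_le_card_mul_sum_pow (fun p' _ => abs_nonneg (T p')) k).trans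
      (mul_le_mul_of_nonneg_right (pow_le_pow_left₀ (Nat.cast_nonneg _) cA k)
        (Finset.sum_nonneg fun _ _ => by positivity))
  obtain ⟨w, hw⟩ : ∃ w : ℕ → ℝ, w = fun p' => if 0 ≤ T p' ^ (k + 1) then 1 else -1 := ⟨_, rfl⟩
  have w1 : ∀ p, |w p| ≤ 1 := by
    intro p
    rw [hw]
    dsimp only
    split_ifs <;> simp
  have w2 : ∀ p, |T p| ^ (k + 1) = w p * T p ^ (k + 1) := by
    intro p
    rw [hw, ← abs_pow]
    dsimp only
    split_ifs with h
    · rw [abs_of_nonneg h, one_mul]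
    · rw [abs_of_neg (not_le.mp h), neg_one_mul]
  obtain ⟨G, hG⟩ : ∃ G : R → ℝ, G = fun x => ∑ p ∈ A', w p * χ p x := ⟨_, rfl⟩
  have s3 : ∑ p' ∈ A', |T p'| ^ (k + 1) ≤
      ∑ q ∈ Fintype.piFinset fun _ : Fin (k + 1) => A, |G (∏ i, α (q i))| := by
    have e1 : ∑ p' ∈ A', |T p'| ^ (k + 1) =
        ∑ q ∈ Fintype.piFinset fun _ : Fin (k + 1) => A, (∏ i, u (q i)) * G (∏ i, α (q i)) := by
      rw [hG]
      simp only [Finset.mul_sum]
      rw [Finset.sum_comm]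
      refine Finset.sum_congr rfl fun p' hp' => ?_
      rw [w2, hT]
      dsimp only
      rw [Finset.sum_pow', Finset.mul_sum]
      refine Finset.sum_congr rfl fun q _ => ?_
      rw [Finset.prod_mul_distrib, chr_prod (hA' p' hp').2.2.mul k fun i => α (q i)]
      ring
    rw [e1]
    refine Finset.sum_le_sum fun q _ => (le_abs_self _).trans ?_
    rw [abs_mul, Finset.abs_prod]
    exact mul_le_of_le_one_left (abs_nonneg _)
      (Finset.prod_le_one (fun _ _ => abs_nonneg _) fun i _ => hu _)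
  have s4 : (∑ q ∈ Fintype.piFinset fun _ : Fin (k + 1) => A, |G (∏ i, α (q i))|) ^ 2 ≤
      (A.card : ℝ) ^ (k + 1) * ∑ q ∈ Fintype.piFinset fun _ : Fin (k + 1) => A,
        G (∏ i, α (q i)) ^ 2 := by
    refine sq_sum_le_card_mul_sum_sq.trans (le_of_eq ?_)
    simp only [sq_abs, Fintype.card_piFinset, Finset.prod_const, Finset.card_univ, Fintype.card_fin,
      Nat.cast_pow]
  have s5 := push (Fintype.piFinset fun _ : Fin (k + 1) => A)
    (Fintype.piFinset fun _ : Fin N =>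
      Finset.Ico (-(((κ * L) ^ (k + 1) : ℕ) : ℤ)) (-(((κ * L) ^ (k + 1) : ℕ) : ℤ) + W))
    (fun q => ∏ i, α (q i)) (fun a => ∑ j, a j • e j) ((k + 1) ^ (k + 1)) (fibre hs (k + 1))
    (fun q hq => by
      obtain ⟨a, ha, hx⟩ := box_prod hk (k + 1) (fun i => α (q i))
        fun i => hα _ (Fintype.mem_piFinset.mp hq i)
      refine ⟨a, Fintype.mem_piFinset.mpr fun j => ?_, hx.symm⟩
      have h1 := abs_le.mp (ha j)
      have h2 : 2 * (((κ * L) ^ (k + 1) : ℕ) : ℤ) + 1 ≤ W := by exact_mod_cast hW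
      exact Finset.mem_Ico.mpr ⟨h1.1, by linarith [h1.2]⟩)
    (fun x => G x ^ 2) fun _ => sq_nonneg _
  have s6 := msq hA' hM (by omega) w w1 (-(((κ * L) ^ (k + 1) : ℕ) : ℤ))
  have s7 : ∑ q ∈ Fintype.piFinset fun _ : Fin (k + 1) => A, G (∏ i, α (q i)) ^ 2 ≤
      ((k + 1 : ℕ) : ℝ) ^ (k + 1) * (M' * (N + 1) * (W : ℝ) ^ N) := by
    refine s5.trans ?_
    rw [Nat.cast_pow, hG]
    exact mul_le_mul_of_nonneg_left s6 (by positivity)
  have t1 : |∑ p ∈ A, ∑ p' ∈ A', u p * v p' * χ p' (α p)| ^ (k + 1) ≤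
      (M' : ℝ) ^ k * ∑ q ∈ Fintype.piFinset fun _ : Fin (k + 1) => A, |G (∏ i, α (q i))| :=
    (pow_le_pow_left₀ (abs_nonneg _) s1 _).trans
      (s2.trans (mul_le_mul_of_nonneg_left s3 (by positivity)))
  have t2 := pow_le_pow_left₀ (by positivity) t1 2
  rw [← pow_mul, mul_comm (k + 1) 2, mul_pow] at t2
  refine t2.trans ((mul_le_mul_of_nonneg_left (s4.trans
    (mul_le_mul_of_nonneg_left s7 (by positivity))) (by positivity)).trans (le_of_eq ?_))
  have : 2 * (k + 1) - 1 = 2 * k + 1 := by omega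
  rw [this]
  ring

end Pool.Agent.MP_1246c0_nt.H12
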