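import Pool.Agent.MP_1246c0_nt.H12.SpecA

/-! The group ring of a cyclic group of order a power of two over the field with two elements. -/

namespace Pool.Agent.MP_1246c0_nt.H12

open Finset

namespace LAM

variable {Λ Λ' : Type} [CommRing Λ] [CommRing Λ'] {N : ℕ} [NeZero N] {g : Λ}

theorem hom (h : (2 : Λ) = 0) : ∃ c : F2 →+* Λ, ∀ x, (x.val : Λ) = c x :=
  ⟨ZMod.castHom (ringChar.dvd (by exact_mod_cast h)) Λ, fun x => by
    rw [ZMod.castHom_apply, ZMod.cast_eq_val]⟩

theorem pw (h : g ^ N = 1) (a b : ZMod N) : g ^ (a + b).val = g ^ a.val * g ^ b.val := by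
  rw [ZMod.val_add, ← pow_eq_pow_mod _ h, pow_add]

theorem map (φ : Λ →+* Λ') (f : ZMod N → F2) : φ (cv g f) = cv (φ g) f := by
  simp only [cv, map_sum, map_mul, map_natCast, map_pow]

theorem cv_one (h : (2 : Λ) = 0) (f : ZMod N → F2) : cv (1 : Λ) f = ((∑ k, f k).val : Λ) := by
  obtain ⟨c, hc⟩ := hom h
  simp only [cv, hc, map_sum, one_pow, mul_one]

theorem aug {au : Λ →+* F2} (h : au g = 1) (f : ZMod N → F2) : au (cv g f) = ∑ k, f k := by
  rw [map, h, cv_one rfl, ZMod.natCast_zmod_val]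

theorem build {n : ℕ} (two : (2 : Λ) = 0) (hp : g ^ 2 ^ n = 1)
    (bij : Function.Bijective (cv (N := 2 ^ n) g))
    (lift : ∀ (R : Type) [CommRing R] (u : R), (2 : R) = 0 → u ^ 2 ^ n = 1 →
      ∃ φ : Λ →+* R, φ g = u) : ∃ st au, LG st au g (2 ^ n) := by
  obtain ⟨st, hs⟩ := lift Λ (g ^ (2 ^ n - 1)) two (by rw [pow_right_comm, hp, one_pow])
  obtain ⟨au, ha⟩ := lift F2 1 rfl (one_pow _)
  obtain ⟨c, hc⟩ := hom two
  have sg : st g * g = 1 := by rw [hs, pow_sub_one_mul (NeZero.ne _), hp]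
  have inv : ∀ h, st (st h) = h := fun h => by
    obtain ⟨f, rfl⟩ := bij.2 h
    have := congrArg st sg
    rw [map_mul, map_one] at this
    rw [map, map, show st (st g) = g by linear_combination g * this - st (st g) * sg]
  refine ⟨st, au, ⟨two, inv, fun h => ?_, fun h => ?_, fun h => ⟨fun e => ?_, ?_⟩, ?_⟩, hp, sg, bij,
    lift⟩
  · obtain ⟨f, rfl⟩ := bij.2 h
    rw [map st, aug ha, aug (by rw [hs, map_pow, ha, one_pow])]
  · obtain ⟨f, rfl⟩ := bij.2 h
    refine sum_induction _ (fun h => ∃ k, st h * h = ((au h).val : Λ) + k + st k) ?_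
      ⟨0, by simp⟩ fun k _ => ⟨0, ?_⟩
    · rintro a b ⟨k, e⟩ ⟨k', e'⟩
      refine ⟨k + k' + st a * b, ?_⟩
      simp only [hc, map_add, map_mul, inv] at e e' ⊢
      linear_combination e + e'
    · have : ∀ x : F2, x = 0 ∨ x = 1 := by decide
      rcases this (f k) with e | e <;> simp [e, ha, ← mul_pow, sg, ZMod.val_one]
  · obtain ⟨f, rfl⟩ := bij.2 h
    have := cv_one two f
    rw [← aug ha, e, ZMod.val_zero, Nat.cast_zero] at this
    rw [← sub_zero (cv g f), ← this, cv, cv, ← sum_sub_distrib]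
    exact dvd_sum fun k _ => mul_sub _ _ (_ : Λ) ▸ (sub_dvd_pow_sub_pow g 1 _).mul_left _
  · rintro ⟨k, rfl⟩
    rw [map_mul, map_sub, ha, map_one, sub_self, zero_mul]
  · rw [← sub_eq_zero.2 hp]
    clear * - two
    induction n with
    | zero => simp
    | succ n ih =>
      rw [pow_succ 2, pow_mul, pow_mul, ih]
      linear_combination (1 - g ^ 2 ^ n) * two

end LAM

open LAM in
theorem rowLAM : SLAM where
  ex n := by
    have p : ∀ k : ℕ, (AddMonoidAlgebra.single 1 1 : AddMonoidAlgebra F2 (ZMod (2 ^ n))) ^ k =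
        .single (k : ZMod (2 ^ n)) 1 := fun k => by simp
    have bij : Function.Bijective (cv (N := 2 ^ n)
        (AddMonoidAlgebra.single 1 1 : AddMonoidAlgebra F2 (ZMod (2 ^ n)))) := by
      refine (congrArg _ (funext fun f => AddMonoidAlgebra.coeff_injective (Finsupp.ext fun k =>
        ?_))).mpr (Finsupp.equivFunOnFinite.symm.trans AddMonoidAlgebra.coeffEquiv.symm).bijective
      simp only [cv, p, AddMonoidAlgebra.natCast_def, AddMonoidAlgebra.single_mul_single]
      simp [Finsupp.single_apply]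
    refine (build ?_ ?_ bij fun R _ u h e => ?_).elim fun st ⟨au, h⟩ =>
      ⟨_, _, .of_surjective _ bij.2, st, au, _, h⟩
    · exact (map_ofNat (algebraMap F2 _) 2).symm.trans (map_zero _)
    · rw [p, ZMod.natCast_self, AddMonoidAlgebra.one_def]
    · obtain ⟨c, -⟩ := hom h
      refine ⟨AddMonoidAlgebra.liftNCRingHom c ⟨⟨fun k => u ^ k.toAdd.val, by simp⟩,
        fun a b => pw e _ _⟩ fun _ _ => Commute.all _ _, ?_⟩
      simp [ZMod.val_one_eq_one_mod, ← pow_eq_pow_mod _ e]
  zero := by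
    have e : ∀ f : Co 0, cv (1 : F2) f = f 0 := by decide
    obtain ⟨st, au, h⟩ := build (n := 0) (g := (1 : F2)) rfl rfl (by decide) fun R _ u h e => by
      obtain ⟨c, -⟩ := hom h
      exact ⟨c, by simpa using e.symm⟩
    exact ⟨by rwa [Subsingleton.elim st i2, Subsingleton.elim au i2] at h, e⟩
  add Λ _ N _ g f f' h := by
    obtain ⟨c, hc⟩ := hom h
    simp only [cv, hc, Pi.add_apply, map_add, add_mul, sum_add_distrib]
  one Λ _ N _ g x := by
    rw [cv, sum_eq_single 0 (fun k _ h => by simp [h]) (by simp)]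
    simp
  map Λ Λ' _ _ N _ φ g f := LAM.map φ f
  au Λ _ N _ st au g h := aug (by simpa [sub_eq_zero] using (h.lr.ker _).2 dvd_rfl)
  st Λ _ N _ st au g h f := by
    rw [LAM.map, cv, cv, ← Equiv.sum_comp (Equiv.neg _)]
    refine sum_congr rfl fun k _ => ?_
    have a := pw h.pw k (-k)
    have b : st g ^ (-k).val * g ^ (-k).val = 1 := by rw [← mul_pow, h.sg, one_pow]
    rw [add_neg_cancel, ZMod.val_zero, pow_zero] at a
    rw [Equiv.neg_apply, show st g ^ (-k).val = g ^ k.val by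
      linear_combination st g ^ (-k).val * a + g ^ k.val * b]
  mul Λ _ N _ g h e f f' := by
    obtain ⟨c, hc⟩ := hom h
    simp only [cv, hc, map_sum, map_mul, sum_mul, mul_sum]
    rw [sum_comm, sum_comm (γ := ZMod N) (f := fun k j => c (f j) * c (f' (k - j)) * g ^ k.val)]
    refine sum_congr rfl fun j _ => Fintype.sum_equiv (Equiv.addLeft j) _ _ fun k => ?_
    rw [Equiv.coe_addLeft, add_sub_cancel_left, pw e]
    ring

end Pool.Agent.MP_1246c0_nt.H12
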